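import Pool.Agent.Helper14.MW.St
import Pool.Agent.Helper29.MW.Eq
import Pool.Agent.Helper20.Gap.CW

/-!
# Monadic second-order sentences: the clique-width of the models is bounded or large

Compare `Pool/Agent/Helper20/Gap/CW.lean`.
-/

set_option autoImplicit false

namespace Pool.Agent.Helper14.MW

open Pool.Agent.Helper20.Spectra Pool.Agent.Helper20.OP Pool.Agent.Helper29.TD
  Pool.Agent.Helper29.TW Pool.Agent.Helper29.CW Pool.Agent.Helper29.MW Filter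

variable {S : Type} {ar : S → ℕ}

theorem msat_mlty (φ : MFm S ar 0 0) : ∃ n q : ℕ, ∀ (L V V' : Type) (J : Interp S ar V)
    (J' : Interp S ar V') (l : V → L) (l' : V' → L), mlty n q J l = mlty n q J' l' →
    (MSat J φ ↔ MSat J' φ) := by
  obtain ⟨n, q, h⟩ := msat_meq φ
  exact ⟨n, q, fun L V V' J J' l l' hl => h V V' J J' (meq_of_mlty n q hl)⟩

theorem mexists_fin {V : Type} [Finite V] (J : Interp S ar V) (φ : MFm S ar 0 0)
    (h : MSat J φ) : MSat (fun s v => J s (fun i => (Finite.equivFin V).symm (v i)) :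
      Interp S ar (Fin (Nat.card V))) φ :=
  (MSat.iso J (Finite.equivFin V) φ).1 h

theorem not_linked_clique_mso [Finite S] (har : ∀ s, ar s ≤ 2) (w : ℕ → ℕ)
    (hw : ∀ d, ∀ᶠ n in atTop, E d (w n) ≤ n) (φ : MFm S ar 0 0) (N1 : ℕ)
    (hφ : ∀ (n : ℕ) (I : Interp S ar (Fin n)), N1 ≤ n → MSat I φ → CwLe I (w n)) :
    ∃ k, 1 ≤ k ∧ ∀ (n : ℕ) (I : Interp S ar (Fin n)), 1 ≤ n → MSat I φ →
      ∀ W : Set (Fin n), ¬ Lnk I k (NN S k) W := by
  classical
  obtain ⟨n₀, q, hq⟩ := msat_mlty φ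
  obtain ⟨F, ⟨c, hF⟩, hdown⟩ := mpump_down (S := S) (ar := ar) n₀ q
  obtain ⟨N0', hN0'⟩ := eventually_atTop.1 (hw (c + 4))
  obtain ⟨N0, hN0, hN01⟩ : ∃ N0, (∀ n, N0 ≤ n → E (c + 4) (w n) ≤ n) ∧ N1 ≤ N0 :=
    ⟨N0' + N1, fun n hn => hN0' n (by omega), by omega⟩
  by_contra hcon
  push Not at hcon
  obtain ⟨n, I, hn, hI, W₀, hW₀⟩ := hcon (N0 + 1) (by omega)
  have hNN : ∀ k, k < NN S k := by
    intro k
    unfold NN DD
    nlinarith [Nat.zero_le (Nat.card S), Nat.zero_le (Nat.card S * k)]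
  have hle : ∀ (k : ℕ) (W : Set (Fin n)), Lnk I k (NN S k) W → k ≤ n := by
    intro k W h
    have h1 := Set.ncard_le_card W
    rw [h.1] at h1
    have h2 := hNN k
    simp only [Nat.card_fin] at h1
    omega
  let Q : ℕ → Prop := fun k => ∃ W : Set (Fin n), Lnk I k (NN S k) W
  have h0 : Q (N0 + 1) := ⟨W₀, hW₀⟩
  have hb : N0 + 1 ≤ n := hle _ _ hW₀
  obtain ⟨k, hk, hkQ, hmax⟩ : ∃ k, N0 + 1 ≤ k ∧ Q k ∧ ¬ Q (k + 1) := by
    refine ⟨Nat.findGreatest Q n, Nat.le_findGreatest hb h0, Nat.findGreatest_spec hb h0, ?_⟩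
    intro h1
    obtain ⟨W, hW⟩ := h1
    have h2 := hle _ _ hW
    have h3 : Nat.findGreatest Q n + 1 ≤ Nat.findGreatest Q n :=
      Nat.le_findGreatest h2 ⟨W, hW⟩
    omega
  obtain ⟨W, hW⟩ := hkQ
  have : Nonempty (Fin n) := ⟨⟨0, by omega⟩⟩
  obtain ⟨l, hl⟩ := up har I (k + 1) (fun W' h => hmax ⟨W', h⟩)
  obtain ⟨V, J, l', e, hG, hJ⟩ := hl.exists_gen
  have hL : Lnk J k (NN S k) (e '' W) := by
    rw [hJ]
    exact hW.map e
  obtain ⟨V', J', l'', W', hG', hty, hL', hcard⟩ := hdown k (by omega) V J l' _ hG hL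
  have := hG'.finite
  have hsat : MSat J' φ := by
    refine (hq _ _ _ _ _ _ _ hty).2 ?_
    rw [hJ]
    exact (MSat.iso I e φ).1 hI
  have hfin := mexists_fin J' φ hsat
  have hLfin := hL'.map (Finite.equivFin V')
  have hn' : k ≤ Nat.card V' := by
    have h1 := Set.ncard_le_card W'
    rw [hL'.1] at h1
    have h2 := hNN k
    omega
  have hcw := hφ _ _ (by omega) hfin
  have hkw : k ≤ w (Nat.card V') := by
    by_contra hlt
    push Not at hlt
    refine low (n := NN S k) (by have := hNN k; omega) hcw (Finite.equivFin V' '' W') ?_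
    exact ⟨hLfin.1, fun Z hZ => hLfin.2 Z (hZ.mono hlt.le)⟩
  have h1 := hN0 (Nat.card V') (by omega)
  have h2 : E (c + 4) k ≤ E (c + 4) (w (Nat.card V')) := E_mono _ hkw
  have h3 : E (c + 3) k < E (c + 4) k := E_succ_le _ _
  have h4 : E c (k + 2) ≤ E (c + 3) k := by
    rw [← E_add]
    apply E_mono
    have a1 : k < E 1 k := E_succ_le 0 k
    have a2 : E 1 k < E 2 k := E_succ_le 1 k
    have a3 : E 2 k < E 3 k := E_succ_le 2 k
    omega
  have h5 := hF k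
  omega

theorem bounded_clique_mso [Finite S] (har : ∀ s, ar s ≤ 2) (w : ℕ → ℕ)
    (hw : ∀ d, ∀ᶠ n in atTop, E d (w n) ≤ n)
    (φ : MFm S ar 0 0) (N1 : ℕ)
    (h1 : ∀ (n : ℕ) (I : Interp S ar (Fin n)), N1 ≤ n → MSat I φ → CwLe I (w n)) :
    (∃ L, ∀ (n : ℕ) (I : Interp S ar (Fin n)), 1 ≤ n → MSat I φ → CwLe I L) ∧
      UltPeriodic {n : ℕ | 1 ≤ n ∧ ∃ I : Interp S ar (Fin n), MSat I φ} := by
  classical
  obtain ⟨k, hk, hnl⟩ := not_linked_clique_mso har w hw φ N1 h1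
  refine ⟨⟨KK S k + KK S k, ?_⟩, ?_⟩
  · intro n I hn hI
    have : Nonempty (Fin n) := ⟨⟨0, by omega⟩⟩
    obtain ⟨l, hl⟩ := up har I k (hnl n I hn hI)
    exact hl.cwLe har
  · obtain ⟨n₀, q, hq⟩ := msat_mlty φ
    obtain ⟨p, N, hp, hup⟩ := mpump_up (S := S) (ar := ar) n₀ q (KK S k)
    refine ultPeriodic_of_add hp (N := N) (fun n hn hA => ?_)
    obtain ⟨hn1, I, hI⟩ := hA
    have : Nonempty (Fin n) := ⟨⟨0, by omega⟩⟩
    obtain ⟨l, hl⟩ := up har I k (hnl n I hn1 hI)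
    obtain ⟨V, J, l', e, hG, hJ⟩ := hl.exists_gen
    have hcV : Nat.card V = n := by
      rw [← Nat.card_congr e, Nat.card_fin]
    obtain ⟨V', J', l'', hG', hty, hc'⟩ := hup V J l' hG (by rw [hcV]; exact hn)
    have := hG'.finite
    have hsat : MSat J' φ := by
      refine (hq _ _ _ _ _ _ _ hty).2 ?_
      rw [hJ]
      exact (MSat.iso I e φ).1 hI
    have hfin := mexists_fin J' φ hsat
    rw [hcV] at hc'
    refine ⟨by omega, ?_⟩
    rw [← hc']
    exact ⟨_, hfin⟩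

end Pool.Agent.Helper14.MW
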