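import Pool.Agent.Helper29.MW.Base
import Pool.Agent.Helper29.CW.TyJn
import Pool.Agent.Helper29.CW.TyCard

/-!
# Monadic second-order types of labelled structures: joins, forgetting the labels, number
-/

set_option autoImplicit false

namespace Pool.Agent.Helper14.MW

open Pool.Agent.Helper20.Spectra Pool.Agent.Helper29.TD Pool.Agent.Helper29.CW
  Pool.Agent.Helper29.MW

/-- the relation of the join, with a new unary relation -/
def jnR {S : Type} {ar : S → ℕ} {L : Type} (R : ∀ s : S, (Fin (ar s) → L ⊕ L) → Prop) :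
    ∀ s : Option S, (Fin (exAr ar s) → L ⊕ L) → Prop
  | none => fun _ => False
  | some s => R s

lemma exI_jn {S : Type} {ar : S → ℕ} {L V₁ V₂ : Type} (R : ∀ s : S, (Fin (ar s) → L ⊕ L) → Prop)
    (J₁ : Interp S ar V₁) (J₂ : Interp S ar V₂) (l₁ : V₁ → L) (l₂ : V₂ → L) (A : Set (V₁ ⊕ V₂)) :
    exI (jn R J₁ l₁ J₂ l₂) A =
      jn (jnR R) (exI J₁ (Sum.inl ⁻¹' A)) l₁ (exI J₂ (Sum.inr ⁻¹' A)) l₂ := by
  funext s v
  apply propext
  rcases s with _ | s
  · change Fin 1 → V₁ ⊕ V₂ at v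
    show v 0 ∈ A ↔ (∃ u : Fin 1 → V₁, Sum.inl (u 0) ∈ A ∧ v = fun i => Sum.inl (u i)) ∨
      (∃ u : Fin 1 → V₂, Sum.inr (u 0) ∈ A ∧ v = fun i => Sum.inr (u i)) ∨ (_ ∧ _ ∧ False)
    have hv : ∀ w : V₁ ⊕ V₂, w = v 0 → v = fun _ => w := by
      rintro w rfl
      funext i
      rw [Subsingleton.elim i 0]
    constructor
    · intro h
      rcases h0 : v 0 with x | y
      · rw [h0] at h
        exact Or.inl ⟨fun _ => x, h, hv _ h0.symm⟩
      · rw [h0] at h
        exact Or.inr (Or.inl ⟨fun _ => y, h, hv _ h0.symm⟩)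
    · rintro (⟨u, h1, h2⟩ | ⟨u, h1, h2⟩ | ⟨_, _, h⟩)
      · rw [h2]
        exact h1
      · rw [h2]
        exact h1
      · exact h.elim
  · exact Iff.rfl

/-- the types of the expansions by one set -/
def mset (n q : ℕ) {S : Type} {ar : S → ℕ} {L V : Type} (J : Interp S ar V) (l : V → L) :
    Set (MLTy n (Option S) (exAr ar) L q) := {t | ∃ A : Set _, mlty n q (exI J A) l = t}

theorem mlty_jn (n q : ℕ) : ∀ {S : Type} {ar : S → ℕ} {L V₁ V₂ V₁' V₂' : Type}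
    (R : ∀ s : S, (Fin (ar s) → L ⊕ L) → Prop) (r : L ⊕ L → L)
    {J₁ : Interp S ar V₁} {J₁' : Interp S ar V₁'} {J₂ : Interp S ar V₂} {J₂' : Interp S ar V₂'}
    {l₁ : V₁ → L} {l₁' : V₁' → L} {l₂ : V₂ → L} {l₂' : V₂' → L},
    mlty n q J₁ l₁ = mlty n q J₁' l₁' → mlty n q J₂ l₂ = mlty n q J₂' l₂' →
    mlty n q (jn R J₁ l₁ J₂ l₂) (fun x => r (Sum.map l₁ l₂ x)) =
      mlty n q (jn R J₁' l₁' J₂' l₂') (fun x => r (Sum.map l₁' l₂' x)) := by
  induction n with
  | zero =>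
    intro S ar L V₁ V₂ V₁' V₂' R r J₁ J₁' J₂ J₂' l₁ l₁' l₂ l₂' h₁ h₂
    exact lty_jn q R r h₁ h₂
  | succ n ih =>
    have key : ∀ {S : Type} {ar : S → ℕ} {L V₁ V₂ V₁' V₂' : Type}
        (R : ∀ s : S, (Fin (ar s) → L ⊕ L) → Prop) (r : L ⊕ L → L)
        {J₁ : Interp S ar V₁} {J₁' : Interp S ar V₁'} {J₂ : Interp S ar V₂}
        {J₂' : Interp S ar V₂'} {l₁ : V₁ → L} {l₁' : V₁' → L} {l₂ : V₂ → L} {l₂' : V₂' → L},
        mset n q J₁ l₁ = mset n q J₁' l₁' → mset n q J₂ l₂ = mset n q J₂' l₂' →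
        mset n q (jn R J₁ l₁ J₂ l₂) (fun x => r (Sum.map l₁ l₂ x)) ⊆
          mset n q (jn R J₁' l₁' J₂' l₂') (fun x => r (Sum.map l₁' l₂' x)) := by
      intro S ar L V₁ V₂ V₁' V₂' R r J₁ J₁' J₂ J₂' l₁ l₁' l₂ l₂' h₁ h₂ t ht
      obtain ⟨A, rfl⟩ := ht
      have e1 : mlty n q (exI J₁ (Sum.inl ⁻¹' A)) l₁ ∈ mset n q J₁' l₁' := by
        rw [← h₁]
        exact ⟨_, rfl⟩
      have e2 : mlty n q (exI J₂ (Sum.inr ⁻¹' A)) l₂ ∈ mset n q J₂' l₂' := by
        rw [← h₂]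
        exact ⟨_, rfl⟩
      obtain ⟨A₁, hA₁⟩ := e1
      obtain ⟨A₂, hA₂⟩ := e2
      refine ⟨Sum.inl '' A₁ ∪ Sum.inr '' A₂, ?_⟩
      have f1 : (Sum.inl ⁻¹' (Sum.inl '' A₁ ∪ Sum.inr '' A₂ : Set (V₁' ⊕ V₂'))) = A₁ := by
        ext x
        simp
      have f2 : (Sum.inr ⁻¹' (Sum.inl '' A₁ ∪ Sum.inr '' A₂ : Set (V₁' ⊕ V₂'))) = A₂ := by
        ext x
        simp
      rw [exI_jn, exI_jn, f1, f2]
      exact ih (jnR R) r hA₁ hA₂
    intro S ar L V₁ V₂ V₁' V₂' R r J₁ J₁' J₂ J₂' l₁ l₁' l₂ l₂' h₁ h₂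
    have h₁' : mset n q J₁ l₁ = mset n q J₁' l₁' := h₁
    have h₂' : mset n q J₂ l₂ = mset n q J₂' l₂' := h₂
    exact Set.Subset.antisymm (key R r h₁' h₂') (key R r h₁'.symm h₂'.symm)

/-- forgetting the labels in the game -/
private theorem bf_lab14 {S : Type} {ar : S → ℕ} {L V V' : Type} {J : Interp S ar V}
    {J' : Interp S ar V'} {l : V → L} {l' : V' → L} {X : Set V} {Y : Set V'} :
    ∀ (q : ℕ) {P : Set (V × V')}, BF (lab J l) (lab J' l') X Y q P → BF J J' X Y q P := by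
  have hp : ∀ {P : Set (V × V')}, PIso (lab J l) (lab J' l') P → PIso J J' P :=
    fun h => ⟨h.1, fun s v hv => h.2 (Sum.inl s) v hv⟩
  intro q
  induction q with
  | zero => intro P h; exact hp h
  | succ q ih =>
    intro P h
    refine ⟨hp h.1, fun x hx => ?_, fun y hy => ?_⟩
    · obtain ⟨y, hy, h1⟩ := h.2.1 x hx
      exact ⟨y, hy, ih h1⟩
    · obtain ⟨x, hx, h1⟩ := h.2.2 y hy
      exact ⟨x, hx, ih h1⟩

theorem meq_of_mlty (n q : ℕ) : ∀ {S : Type} {ar : S → ℕ} {L V V' : Type} {J : Interp S ar V}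
    {J' : Interp S ar V'} {l : V → L} {l' : V' → L}, mlty n q J l = mlty n q J' l' →
    MEq n q J J' := by
  induction n with
  | zero =>
    intro S ar L V V' J J' l l' h
    exact BF.anti (Set.empty_subset _) (bf_lab14 q ((tp_eq_iff q _ _).1 h))
  | succ n ih =>
    intro S ar L V V' J J' l l' h
    change mset n q J l = mset n q J' l' at h
    refine ⟨fun A => ?_, fun B => ?_⟩
    · have h1 : mlty n q (exI J A) l ∈ mset n q J' l' := by
        rw [← h]
        exact ⟨_, rfl⟩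
      obtain ⟨B, hB⟩ := h1
      exact ⟨B, ih hB.symm⟩
    · have h1 : mlty n q (exI J' B) l' ∈ mset n q J l := by
        rw [h]
        exact ⟨_, rfl⟩
      obtain ⟨A, hA⟩ := h1
      exact ⟨A, ih hA⟩

theorem finite_MLTy_all (n q K : ℕ) : ∀ {S : Type} [Finite S] {ar : S → ℕ},
    Finite (MLTy n S ar (Fin K) q) := by
  induction n with
  | zero =>
    intro S _ ar
    exact finite_Ty (S := S ⊕ Fin K) (ar := Sum.elim ar (fun _ => 1)) q 0
  | succ n ih =>
    intro S _ ar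
    have := ih (S := Option S) (ar := exAr ar)
    show Finite (Set (MLTy n (Option S) (exAr ar) (Fin K) q))
    infer_instance

theorem finite_MLTy {S : Type} {ar : S → ℕ} [Finite S] (n q K : ℕ) :
    Finite (MLTy n S ar (Fin K) q) := finite_MLTy_all n q K

theorem card_MLTy_all (n q : ℕ) : ∀ {S : Type} [Finite S] {ar : S → ℕ},
    Tow (fun K => Nat.card (MLTy n S ar (Fin K) q)) := by
  induction n with
  | zero =>
    intro S _ ar
    exact card_lty q
  | succ n ih =>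
    intro S _ ar
    have h1 := (ih (S := Option S) (ar := exAr ar)).two_pow
    have h2 : (fun K => Nat.card (MLTy (n + 1) S ar (Fin K) q)) =
        fun K => 2 ^ Nat.card (MLTy n (Option S) (exAr ar) (Fin K) q) := by
      funext K
      have := finite_MLTy (S := Option S) (ar := exAr ar) n q K
      have h3 : Nat.card Prop = 2 := by
        rw [Nat.card_eq_fintype_card]
        rfl
      have h4 : Nat.card (MLTy (n + 1) S ar (Fin K) q) =
        Nat.card (MLTy n (Option S) (exAr ar) (Fin K) q → Prop) := rfl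
      rw [h4, Nat.card_fun, h3]
    rw [h2]
    exact h1

theorem card_MLTy {S : Type} {ar : S → ℕ} [Finite S] (n q : ℕ) :
    Tow (fun K => Nat.card (MLTy n S ar (Fin K) q)) := card_MLTy_all n q

end Pool.Agent.Helper14.MW
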