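import Pool.Agent.Helper14.MW.Jn
import Pool.Agent.Helper29.CW.Sizes

/-!
# States with monadic second-order types (compare `Helper29/CW/{StCong,DerIff,Card,Sizes}.lean`)
-/

set_option autoImplicit false

namespace Pool.Agent.Helper14.MW

open Pool.Agent.Helper20.Spectra Pool.Agent.Helper29.TD Pool.Agent.Helper29.TW
  Pool.Agent.Helper29.CW Pool.Agent.Helper29.MW

/-- the states -/
abbrev MStt (n : ℕ) (S : Type) (ar : S → ℕ) (q K k N : ℕ) : Type :=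
  MLTy n S ar (Fin K) q × Fin (3 * N + 1) ×
    Set (Set (Fin K × Col S k) × Fin (3 * N + 1) × Fin (3 * N + 1))

/-- `σ` is the state of `(J, l, W)` -/
def MHasSt {n : ℕ} {S : Type} {ar : S → ℕ} {V : Type} {q K k N : ℕ} (J : Interp S ar V)
    (l : V → Fin K) (W : Set V) (σ : MStt n S ar q K k N) : Prop :=
  σ.1 = mlty n q J l ∧ (σ.2.1 : ℕ) = W.ncard ∧
    ∀ κ : Set (Fin K × Col S k) × Fin (3 * N + 1) × Fin (3 * N + 1),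
      κ ∈ σ.2.2 ↔ Sp J l W κ.1 κ.2.1 κ.2.2

section

variable {S : Type} {ar : S → ℕ} {n q K k N : ℕ} {V V' V₁ V₂ V₁' V₂' : Type}

theorem exists_mst (n q : ℕ) {k N : ℕ} (J : Interp S ar V) (l : V → Fin K) (W : Set V)
    (hW : W.ncard ≤ 3 * N) : ∃ σ : MStt n S ar q K k N, MHasSt J l W σ :=
  ⟨(mlty n q J l, ⟨W.ncard, Nat.lt_succ_of_le hW⟩, {κ | Sp J l W κ.1 κ.2.1 κ.2.2}), rfl, rfl,
    fun _ => Iff.rfl⟩

private theorem sp_iff14 {J : Interp S ar V} {J' : Interp S ar V'} {l : V → Fin K}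
    {l' : V' → Fin K} {W : Set V} {W' : Set V'} {σ : MStt n S ar q K k N} (h : MHasSt J l W σ)
    (h' : MHasSt J' l' W' σ) {P : Set (Fin K × Col S k)} {a b : ℕ} (ha : a ≤ 3 * N)
    (hb : b ≤ 3 * N) : Sp J l W P a b ↔ Sp J' l' W' P a b :=
  (h.2.2 (P, ⟨a, Nat.lt_succ_of_le ha⟩, ⟨b, Nat.lt_succ_of_le hb⟩)).symm.trans (h'.2.2 _)

private theorem jn_imp14 {J₁ : Interp S ar V₁} {J₁' : Interp S ar V₁'} {J₂ : Interp S ar V₂}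
    {J₂' : Interp S ar V₂'} {l₁ : V₁ → Fin K} {l₁' : V₁' → Fin K} {l₂ : V₂ → Fin K}
    {l₂' : V₂' → Fin K} {W₁ : Set V₁} {W₁' : Set V₁'} {W₂ : Set V₂} {W₂' : Set V₂'}
    {σ₁ σ₂ : MStt n S ar q K k N} (h₁ : MHasSt J₁ l₁ W₁ σ₁) (h₁' : MHasSt J₁' l₁' W₁' σ₁)
    (h₂ : MHasSt J₂ l₂ W₂ σ₂) (h₂' : MHasSt J₂' l₂' W₂' σ₂) {a b : ℕ} (ha : a ≤ 3 * N)
    (hb : b ≤ 3 * N) {Q : Set (Fin K × Col S k) → Set (Fin K × Col S k) → Prop}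
    (h : ∃ (P₁ P₂ : Set (Fin K × Col S k)) (a₁ b₁ a₂ b₂ : ℕ), Sp J₁ l₁ W₁ P₁ a₁ b₁ ∧
      Sp J₂ l₂ W₂ P₂ a₂ b₂ ∧ Q P₁ P₂ ∧ a = a₁ + a₂ ∧ b = b₁ + b₂) :
    ∃ (P₁ P₂ : Set (Fin K × Col S k)) (a₁ b₁ a₂ b₂ : ℕ), Sp J₁' l₁' W₁' P₁ a₁ b₁ ∧
      Sp J₂' l₂' W₂' P₂ a₂ b₂ ∧ Q P₁ P₂ ∧ a = a₁ + a₂ ∧ b = b₁ + b₂ := by
  obtain ⟨P₁, P₂, a₁, b₁, a₂, b₂, s1, s2, hQ, e1, e2⟩ := h
  exact ⟨P₁, P₂, a₁, b₁, a₂, b₂, (sp_iff14 h₁ h₁' (by omega) (by omega)).1 s1,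
    (sp_iff14 h₂ h₂' (by omega) (by omega)).1 s2, hQ, e1, e2⟩

private theorem sp_jn14 [Finite V₁] [Finite V₂] {J₁ : Interp S ar V₁} {J₂ : Interp S ar V₂}
    {l₁ : V₁ → Fin K} {l₂ : V₂ → Fin K} (R : ∀ s : S, (Fin (ar s) → Fin K ⊕ Fin K) → Prop)
    (r : Fin K ⊕ Fin K → Fin K) (W : Set (V₁ ⊕ V₂)) (P : Set (Fin K × Col S k)) (a b : ℕ) :
    Sp (jn R J₁ l₁ J₂ l₂) (fun x => r (Sum.map l₁ l₂ x)) W P a b ↔
      ∃ (P₁ P₂ : Set (Fin K × Col S k)) (a₁ b₁ a₂ b₂ : ℕ), Sp J₁ l₁ (Sum.inl ⁻¹' W) P₁ a₁ b₁ ∧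
        Sp J₂ l₂ (Sum.inr ⁻¹' W) P₂ a₂ b₂ ∧ (Comp R P₁ P₂ ∧
        P = (fun p : Fin K × Col S k => (r (Sum.inl p.1), p.2)) '' P₁ ∪
          (fun p : Fin K × Col S k => (r (Sum.inr p.1), p.2)) '' P₂) ∧ a = a₁ + a₂ ∧
            b = b₁ + b₂ := by
  rw [sp_jn]
  constructor
  · rintro ⟨P₁, P₂, a₁, b₁, a₂, b₂, s1, s2, hC, hP, e1, e2⟩
    exact ⟨P₁, P₂, a₁, b₁, a₂, b₂, s1, s2, ⟨hC, hP⟩, e1, e2⟩
  · rintro ⟨P₁, P₂, a₁, b₁, a₂, b₂, s1, s2, ⟨hC, hP⟩, e1, e2⟩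
    exact ⟨P₁, P₂, a₁, b₁, a₂, b₂, s1, s2, hC, hP, e1, e2⟩

theorem MHasSt.jn [Finite V₁] [Finite V₂] [Finite V₁'] [Finite V₂']
    {J₁ : Interp S ar V₁} {J₁' : Interp S ar V₁'} {J₂ : Interp S ar V₂} {J₂' : Interp S ar V₂'}
    {l₁ : V₁ → Fin K} {l₁' : V₁' → Fin K} {l₂ : V₂ → Fin K} {l₂' : V₂' → Fin K}
    {W : Set (V₁ ⊕ V₂)} {W' : Set (V₁' ⊕ V₂')} {σ₁ σ₂ σ : MStt n S ar q K k N}
    (R : ∀ s : S, (Fin (ar s) → Fin K ⊕ Fin K) → Prop) (r : Fin K ⊕ Fin K → Fin K)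
    (h₁ : MHasSt J₁ l₁ (Sum.inl ⁻¹' W) σ₁) (h₁' : MHasSt J₁' l₁' (Sum.inl ⁻¹' W') σ₁)
    (h₂ : MHasSt J₂ l₂ (Sum.inr ⁻¹' W) σ₂) (h₂' : MHasSt J₂' l₂' (Sum.inr ⁻¹' W') σ₂)
    (h : MHasSt (jn R J₁ l₁ J₂ l₂) (fun x => r (Sum.map l₁ l₂ x)) W σ) :
    MHasSt (jn R J₁' l₁' J₂' l₂') (fun x => r (Sum.map l₁' l₂' x)) W' σ := by
  refine ⟨?_, ?_, fun κ => ?_⟩
  · rw [h.1]
    exact mlty_jn n q R r (h₁.1.symm.trans h₁'.1) (h₂.1.symm.trans h₂'.1)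
  · rw [h.2.1, ncard_sum W, ncard_sum W', ← h₁.2.1, ← h₂.2.1, ← h₁'.2.1, ← h₂'.2.1]
  · have ha : (κ.2.1 : ℕ) ≤ 3 * N := Nat.le_of_lt_succ κ.2.1.2
    have hb : (κ.2.2 : ℕ) ≤ 3 * N := Nat.le_of_lt_succ κ.2.2.2
    refine (h.2.2 κ).trans ((sp_jn14 R r W _ _ _).trans (Iff.trans ?_ (sp_jn14 R r W' _ _ _).symm))
    exact ⟨jn_imp14 h₁ h₁' h₂ h₂' ha hb, jn_imp14 h₁' h₁ h₂' h₂ ha hb⟩


end

section

variable (n₀ : ℕ) (S : Type) (ar : S → ℕ) (q K k N : ℕ)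

def MBSt (σ : Option (MStt n₀ S ar q K k N)) : Prop := σ = none

/-- the states of the structures with one element -/
def MUSt (σ τ : Option (MStt n₀ S ar q K k N)) : Prop :=
  σ = none ∧ ∃ (J : Interp S ar Unit) (a : Fin K) (W : Set Unit) (τ' : MStt n₀ S ar q K k N),
    τ = some τ' ∧ MHasSt J (fun _ => a) W τ'

/-- the states of two structures and of a join -/
def MJSt (σ₁ σ₂ σ : Option (MStt n₀ S ar q K k N)) : Prop :=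
  ∃ (V₁ V₂ : Type) (_ : Finite V₁) (_ : Finite V₂) (J₁ : Interp S ar V₁) (J₂ : Interp S ar V₂)
    (l₁ : V₁ → Fin K) (l₂ : V₂ → Fin K) (R : ∀ s : S, (Fin (ar s) → Fin K ⊕ Fin K) → Prop)
    (r : Fin K ⊕ Fin K → Fin K) (W : Set (V₁ ⊕ V₂)) (τ₁ τ₂ τ : MStt n₀ S ar q K k N),
    σ₁ = some τ₁ ∧ σ₂ = some τ₂ ∧ σ = some τ ∧ MHasSt J₁ l₁ (Sum.inl ⁻¹' W) τ₁ ∧
    MHasSt J₂ l₂ (Sum.inr ⁻¹' W) τ₂ ∧
    MHasSt (jn R J₁ l₁ J₂ l₂) (fun x => r (Sum.map l₁ l₂ x)) W τ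

variable {n₀ S ar q K k N}

theorem mder_of_gen {V : Type} {J : Interp S ar V} {l : V → Fin K}
    (h : Gen S ar (Fin K) V J l) (W : Set V) (σ : MStt n₀ S ar q K k N)
    (hσ : MHasSt J l W σ) :
    Der (MBSt n₀ S ar q K k N) (MUSt n₀ S ar q K k N) (MJSt n₀ S ar q K k N) (some σ) (Nat.card V) := by
  induction h generalizing σ with
  | point J a =>
    have h0 : Nat.card Unit = 0 + 1 := by simp
    rw [h0]
    exact Der.unary none (some σ) 0 ⟨rfl, J, a, W, σ, rfl, hσ⟩ (Der.base none rfl)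
  | join V₁ V₂ J₁ J₂ l₁ l₂ R r h₁ h₂ ih₁ ih₂ =>
    have hf₁ := h₁.finite
    have hf₂ := h₂.finite
    have hW : W.ncard ≤ 3 * N := by
      have h3 := hσ.2.1
      have h4 := σ.2.1.2
      omega
    have hs := ncard_sum W
    obtain ⟨σ₁, hσ₁⟩ := exists_mst n₀ q (k := k) (N := N) J₁ l₁ (Sum.inl ⁻¹' W) (by omega)
    obtain ⟨σ₂, hσ₂⟩ := exists_mst n₀ q (k := k) (N := N) J₂ l₂ (Sum.inr ⁻¹' W) (by omega)
    rw [Nat.card_sum]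
    exact Der.join (some σ₁) (some σ₂) (some σ) _ _
      ⟨V₁, V₂, hf₁, hf₂, J₁, J₂, l₁, l₂, R, r, W, σ₁, σ₂, σ, rfl, rfl, rfl, hσ₁, hσ₂, hσ⟩
      (ih₁ _ _ hσ₁) (ih₂ _ _ hσ₂)

private theorem mgen_of_der_aux {x : Option (MStt n₀ S ar q K k N)} {n : ℕ}
    (h : Der (MBSt n₀ S ar q K k N) (MUSt n₀ S ar q K k N) (MJSt n₀ S ar q K k N) x n) :
    (x = none → n = 0) ∧ ∀ σ, x = some σ → ∃ (V : Type) (J : Interp S ar V) (l : V → Fin K)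
      (W : Set V), Gen S ar (Fin K) V J l ∧ MHasSt J l W σ ∧ Nat.card V = n := by
  induction h with
  | base t ht =>
    refine ⟨fun _ => rfl, fun σ hσ => ?_⟩
    have h1 : t = none := ht
    rw [h1] at hσ
    exact absurd hσ (by simp)
  | unary t t' n hU _ ih =>
    obtain ⟨h0, J, a, W, τ', h1, h2⟩ := hU
    refine ⟨fun h3 => absurd (h1.symm.trans h3) (by simp), fun σ hσ => ?_⟩
    have h4 : τ' = σ := Option.some.inj (h1.symm.trans hσ)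
    subst h4
    refine ⟨Unit, J, fun _ => a, W, Gen.point J a, h2, ?_⟩
    rw [ih.1 h0]
    simp
  | join t₁ t₂ t n₁ n₂ hJ _ _ ih₁ ih₂ =>
    obtain ⟨V₁, V₂, hf₁, hf₂, J₁, J₂, l₁, l₂, R, r, W, σ₁, σ₂, τ, e₁, e₂, e, ht₁, ht₂, ht⟩ := hJ
    refine ⟨fun h3 => absurd (e.symm.trans h3) (by simp), fun σ hσ => ?_⟩
    have h4 : τ = σ := Option.some.inj (e.symm.trans hσ)
    subst h4
    obtain ⟨V₁', J₁', l₁', W₁', hG₁, hs₁, hc₁⟩ := ih₁.2 σ₁ e₁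
    obtain ⟨V₂', J₂', l₂', W₂', hG₂, hs₂, hc₂⟩ := ih₂.2 σ₂ e₂
    have hg₁ := hG₁.finite
    have hg₂ := hG₂.finite
    have f1 : (Sum.inl ⁻¹' (Sum.inl '' W₁' ∪ Sum.inr '' W₂' : Set (V₁' ⊕ V₂'))) = W₁' := by
      ext x
      simp
    have f2 : (Sum.inr ⁻¹' (Sum.inl '' W₁' ∪ Sum.inr '' W₂' : Set (V₁' ⊕ V₂'))) = W₂' := by
      ext x
      simp
    refine ⟨V₁' ⊕ V₂', jn R J₁' l₁' J₂' l₂', fun x => r (Sum.map l₁' l₂' x),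
      Sum.inl '' W₁' ∪ Sum.inr '' W₂', Gen.join V₁' V₂' J₁' J₂' l₁' l₂' R r hG₁ hG₂,
      MHasSt.jn R r ht₁ (by rw [f1]; exact hs₁) ht₂ (by rw [f2]; exact hs₂) ht, ?_⟩
    rw [Nat.card_sum, hc₁, hc₂]

theorem mgen_of_der {σ : MStt n₀ S ar q K k N} {n : ℕ}
    (h : Der (MBSt n₀ S ar q K k N) (MUSt n₀ S ar q K k N) (MJSt n₀ S ar q K k N) (some σ) n) :
    ∃ (V : Type) (J : Interp S ar V) (l : V → Fin K) (W : Set V),
      Gen S ar (Fin K) V J l ∧ MHasSt J l W σ ∧ Nat.card V = n :=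
  (mgen_of_der_aux h).2 σ rfl


end

section

variable {S : Type} {ar : S → ℕ}

instance finite_MStt [Finite S] (n q K k N : ℕ) : Finite (MStt n S ar q K k N) := by
  have := finite_MLTy (S := S) (ar := ar) n q K
  unfold MStt
  infer_instance

private lemma card_set14 (α : Type) [Finite α] : Nat.card (Set α) = 2 ^ Nat.card α := by
  have h1 : Nat.card (Set α) = Nat.card (α → Prop) := rfl
  have h2 : Nat.card Prop = 2 := by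
    rw [Nat.card_eq_fintype_card]
    rfl
  rw [h1, Nat.card_fun, h2]

private lemma card_Col14 [Finite S] (k : ℕ) :
    Nat.card (Col S k) = k + ((2 ^ k) ^ 2) ^ Nat.card S := by
  have h2 : Nat.card Prop = 2 := by
    rw [Nat.card_eq_fintype_card]
    rfl
  have h3 : Nat.card Bool = 2 := by
    rw [Nat.card_eq_fintype_card]
    rfl
  rw [Nat.card_sum, Nat.card_fin, Nat.card_fun, Nat.card_fun, Nat.card_fun, h2, h3, Nat.card_fin]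

theorem card_MStt [Finite S] (n q : ℕ) :
    Tow (fun k => Nat.card (Option (MStt n S ar q (KK S (k + 1)) k (NN S k)))) := by
  have hK : Tow (fun k => KK S (k + 1)) := tow_KK S
  have hN : Tow (fun k => 3 * NN S k + 1) :=
    Tow.add (Tow.mul (Tow.const 3) (Tow.add (Tow.mul (Tow.const _) Tow.id) (Tow.const 1))) (Tow.const 1)
  have hC : Tow (fun k => k + ((2 ^ k) ^ 2) ^ Nat.card S) :=
    Tow.add Tow.id (Tow.pow (Tow.pow (Tow.two_pow Tow.id) (Tow.const 2)) (Tow.const _))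
  have hT : Tow (fun k => Nat.card (MLTy n S ar (Fin (KK S (k + 1))) q)) :=
    tow_comp (card_MLTy n q) hK
  have h : (fun k => Nat.card (Option (MStt n S ar q (KK S (k + 1)) k (NN S k)))) = fun k =>
      Nat.card (MLTy n S ar (Fin (KK S (k + 1))) q) * ((3 * NN S k + 1) *
        2 ^ (2 ^ (KK S (k + 1) * (k + ((2 ^ k) ^ 2) ^ Nat.card S)) *
          ((3 * NN S k + 1) * (3 * NN S k + 1)))) + 1 := by
    funext k
    rw [Finite.card_option, Nat.card_prod, Nat.card_prod, Nat.card_fin, card_set14, Nat.card_prod,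
      Nat.card_prod, Nat.card_fin, card_set14, Nat.card_prod, Nat.card_fin, card_Col14]
  rw [h]
  exact Tow.add (Tow.mul hT (Tow.mul hN (Tow.two_pow (Tow.mul (Tow.two_pow (Tow.mul hK hC))
    (Tow.mul hN hN))))) (Tow.const 1)


end

section

variable {S : Type} {ar : S → ℕ}

theorem mpump_down [Finite S] (n q : ℕ) : ∃ F : ℕ → ℕ, Tow F ∧ ∀ (k : ℕ), 1 ≤ k → ∀ (V : Type)
    (J : Interp S ar V) (l : V → Fin (KK S (k + 1))) (W : Set V),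
    Gen S ar (Fin (KK S (k + 1))) V J l → Lnk J k (NN S k) W →
    ∃ (V' : Type) (J' : Interp S ar V') (l' : V' → Fin (KK S (k + 1))) (W' : Set V'),
      Gen S ar (Fin (KK S (k + 1))) V' J' l' ∧ mlty n q J' l' = mlty n q J l ∧
      Lnk J' k (NN S k) W' ∧ Nat.card V' ≤ F k := by
  refine ⟨fun k => 2 ^ Nat.card (Option (MStt n S ar q (KK S (k + 1)) k (NN S k))),
    (card_MStt n q).two_pow, ?_⟩
  intro k hk V J l W hG hL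
  obtain ⟨hW, hL'⟩ := (lnk_iff J l hk (NN S k) W).1 hL
  obtain ⟨σ, hσ⟩ := exists_mst n q (k := k) J l W hW.le
  obtain ⟨m, hm, hder⟩ := (mder_of_gen hG W σ hσ).small
  obtain ⟨V', J', l', W', hG', hσ', hc⟩ := mgen_of_der hder
  have := hG'.finite
  have hW' : W'.ncard = 3 * NN S k := by
    rw [← hσ'.2.1, hσ.2.1, hW]
  refine ⟨V', J', l', W', hG', hσ'.1.symm.trans hσ.1, ?_, ?_⟩
  · rw [lnk_iff J' l' hk (NN S k) W']
    refine ⟨hW', fun P a b hs => ?_⟩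
    obtain ⟨ha, hb⟩ := hs.le
    rw [hW'] at ha hb
    have h1 := (hσ'.2.2 (P, ⟨a, by omega⟩, ⟨b, by omega⟩)).2 hs
    have h2 := (hσ.2.2 (P, ⟨a, by omega⟩, ⟨b, by omega⟩)).1 h1
    exact hL' P a b h2
  · rw [hc]
    exact hm.le

theorem mpump_up [Finite S] (n q K : ℕ) : ∃ p N : ℕ, 1 ≤ p ∧ ∀ (V : Type)
    (J : Interp S ar V) (l : V → Fin K), Gen S ar (Fin K) V J l → N ≤ Nat.card V →
    ∃ (V' : Type) (J' : Interp S ar V') (l' : V' → Fin K), Gen S ar (Fin K) V' J' l' ∧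
      mlty n q J' l' = mlty n q J l ∧ Nat.card V' = Nat.card V + p := by
  obtain ⟨p, N, hp, h⟩ := Der.pump (MBSt n S ar q K 0 0) (MUSt n S ar q K 0 0)
    (MJSt n S ar q K 0 0)
  refine ⟨p, N, hp, fun V J l hG hN => ?_⟩
  obtain ⟨σ, hσ⟩ := exists_mst n q (k := 0) (N := 0) J l (∅ : Set V) (by simp)
  obtain ⟨V', J', l', W', hG', hσ', hc⟩ := mgen_of_der (h _ _ hN (mder_of_gen hG _ σ hσ))
  exact ⟨V', J', l', hG', hσ'.1.symm.trans hσ.1, hc⟩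


end

end Pool.Agent.Helper14.MW
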